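import Mathlib
import Pool.Agent.H.MP_cb4cd2_al.Bool

namespace Pool.Agent.Results.MP_cb4cd2_al.SLP

open Finset MvPolynomial Pool.Agent.H.MP_cb4cd2_al

variable {n : ℕ}

def IsComplex (Δ : Set (Finset (Fin n))) : Prop := ∀ F ∈ Δ, ∀ G ⊆ F, G ∈ Δ

def Facet (Δ : Set (Finset (Fin n))) (F : Finset (Fin n)) : Prop := Maximal (· ∈ Δ) F

def Pure (Δ : Set (Finset (Fin n))) : Prop := ∃ D, ∀ F, Facet Δ F → F.card = D

/-- `F` is a leaf of the complex with set of facets `S` -/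
def Leaf (S : Set (Finset (Fin n))) (F : Finset (Fin n)) : Prop :=
  F ∈ S ∧ (S = {F} ∨ ∃ G ∈ S, G ≠ F ∧ ∀ F' ∈ S, F' ≠ F → F ∩ F' ⊆ F ∩ G)

/-- two facets lie in the same connected component -/
def Conn (Δ : Set (Finset (Fin n))) : Finset (Fin n) → Finset (Fin n) → Prop :=
  Relation.ReflTransGen fun F G => Facet Δ F ∧ Facet Δ G ∧ (F ∩ G).Nonempty

def Forest (Δ : Set (Finset (Fin n))) : Prop :=
  ∀ S : Set (Finset (Fin n)), S.Nonempty → (∀ F ∈ S, Facet Δ F) →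
    (∀ F ∈ S, ∀ G ∈ S, Conn Δ F G) → ∃ F, Leaf S F

variable (K : Type) [Field K]

/-- the Stanley-Reisner ideal plus the squares of the variables -/
noncomputable def I (Δ : Set (Finset (Fin n))) : Ideal (MvPolynomial (Fin n) K) :=
  Ideal.span {f | ∃ σ ∉ Δ, f = ∏ i ∈ σ, X i} ⊔ Ideal.span {f | ∃ i, f = X i ^ 2}

/-- the degree `i` part of the quotient algebra -/
def A (Δ : Set (Finset (Fin n))) (i : ℕ) : Set (MvPolynomial (Fin n) K ⧸ I K Δ) :=
  Ideal.Quotient.mk (I K Δ) '' {f | f.IsHomogeneous i}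

noncomputable def L (Δ : Set (Finset (Fin n))) : MvPolynomial (Fin n) K ⧸ I K Δ :=
  Ideal.Quotient.mk (I K Δ) (∑ i, X i)

variable {K} {Δ : Set (Finset (Fin n))}

noncomputable def ind (σ : Finset (Fin n)) : Fin n →₀ ℕ := ∑ i ∈ σ, Finsupp.single i 1

lemma ind_apply (σ : Finset (Fin n)) (v) : ind σ v = if v ∈ σ then 1 else 0 := by
  simp [ind, Finsupp.finsetSum_apply, Finsupp.single_apply]

lemma ind_le {σ τ : Finset (Fin n)} (h : ind σ ≤ ind τ) : σ ⊆ τ := fun v hv => by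
  have := h v
  simp only [ind_apply, hv, if_true] at this
  by_contra hh
  simp [hh] at this

lemma ind_deg (σ : Finset (Fin n)) : (ind σ).degree = σ.card := by simp [ind]

lemma mem_I (h : IsComplex Δ) (f : MvPolynomial (Fin n) K) :
    f ∈ I K Δ ↔ ∀ σ ∈ Δ, coeff (ind σ) f = 0 := by
  have : I K Δ = Ideal.span ((fun s => monomial s (1 : K)) ''
      ({s | ∃ σ ∉ Δ, s = ind σ} ∪ {s | ∃ i, s = Finsupp.single i 2})) := by
    rw [I, ← Ideal.span_union, Set.image_union]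
    congr 2
    · ext f
      simp only [Set.mem_ofPred_eq, Set.mem_image]
      have e : ∀ σ : Finset (Fin n), monomial (ind σ) (1 : K) = ∏ i ∈ σ, X i := fun σ => by
        rw [ind, monomial_sum_one]; rfl
      exact ⟨fun ⟨σ, h1, h2⟩ => ⟨_, ⟨σ, h1, rfl⟩, (e σ).trans h2.symm⟩,
        fun ⟨_, ⟨σ, h1, rfl⟩, h2⟩ => ⟨σ, h1, h2.symm.trans (e σ)⟩⟩
    · ext f
      simp only [Set.mem_ofPred_eq, Set.mem_image, X_pow_eq_monomial]
      exact ⟨fun ⟨i, h2⟩ => ⟨_, ⟨i, rfl⟩, h2.symm⟩, fun ⟨_, ⟨i, rfl⟩, h2⟩ => ⟨i, h2.symm⟩⟩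
  rw [this, mem_ideal_span_monomial_image]
  constructor
  · intro hf σ hσ
    by_contra hh
    obtain ⟨_, ⟨τ, h1, rfl⟩ | ⟨i, rfl⟩, h2⟩ := hf _ (mem_support_iff.2 hh)
    · exact h1 (h σ hσ τ (ind_le h2))
    · have := h2 i
      rw [ind_apply, Finsupp.single_eq_same] at this
      split_ifs at this <;> omega
  · intro hf s hs
    by_cases h2 : ∃ i, 2 ≤ s i
    · obtain ⟨i, hi⟩ := h2
      exact ⟨_, Or.inr ⟨i, rfl⟩, Finsupp.single_le_iff.2 hi⟩
    · push Not at h2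
      have e : s = ind s.support := by
        ext v
        have := h2 v
        rw [ind_apply]
        split_ifs with h3 <;> simp at h3 <;> omega
      exact ⟨_, Or.inl ⟨s.support, fun h3 => mem_support_iff.1 hs (e ▸ hf _ h3), rfl⟩, e.ge⟩

lemma coeff_L (f : MvPolynomial (Fin n) K) (τ : Finset (Fin n)) :
    coeff (ind τ) ((∑ i, X i) * f) = ∑ v ∈ τ, coeff (ind (τ.erase v)) f := by
  rw [sum_mul, coeff_sum, ← sum_subset (subset_univ τ)]
  · refine sum_congr rfl fun v hv => ?_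
    rw [coeff_X_mul', if_pos (by simp [ind_apply, hv])]
    congr 1
    ext w
    by_cases e : v = w
    · simp [← e, ind_apply, hv]
    · simp [ind_apply, Ne.symm e]
  · intro v _ hv
    rw [coeff_X_mul', if_neg (by simp [ind_apply, hv])]

lemma coeff_Lpow (f : MvPolynomial (Fin n) K) (i j : ℕ) : ∀ τ : Finset (Fin n), τ.card = i + j →
    coeff (ind τ) ((∑ i, X i) ^ j * f) =
      j.factorial * ∑ σ ∈ powersetCard i τ, coeff (ind σ) f := by
  induction j with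
  | zero => intro τ h; simp [← (show τ.card = i from h)]
  | succ j ih =>
    intro τ h
    rw [pow_succ', mul_assoc, coeff_L, sum_congr rfl fun v hv => ih _
      (by have := card_erase_add_one hv; omega), ← mul_sum, step _ i j τ h, Nat.factorial_succ]
    push_cast; ring

lemma ex_facet {σ : Finset (Fin n)} (h : σ ∈ Δ) : ∃ F, σ ⊆ F ∧ Facet Δ F :=
  Finite.exists_le_maximal (p := (· ∈ Δ)) h

lemma conn_symm {F G : Finset (Fin n)} (h : Conn Δ F G) : Conn Δ G F := by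
  induction h with
  | refl => exact .refl
  | tail _ h ih => exact .head ⟨h.2.1, h.1, by rw [inter_comm]; exact h.2.2⟩ ih

lemma down [CharZero K] (hF : Forest Δ) {D i k : ℕ} (hD : ∀ F, Facet Δ F → F.card = D)
    (hik : i ≤ k) (h1 : D + 1 ≤ i + k) (g : Finset (Fin n) → K)
    (hg : ∀ τ, g τ ≠ 0 → τ ∈ Δ ∧ τ.card = k)
    (h : ∀ σ : Finset (Fin n), σ.card = i → ∑ τ with σ ⊆ τ, g τ = 0) (τ₁) : g τ₁ = 0 := by
  classical
  by_contra hne
  obtain ⟨C, -, hC⟩ := exists_minimal_le_of_wellFoundedLT (fun C : Finset (Finset (Fin n)) =>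
    (∀ F ∈ C, Facet Δ F) ∧ ∀ τ, g τ ≠ 0 → ∃ F ∈ C, τ ⊆ F) (univ.filter (Facet Δ))
    ⟨by simp, fun τ hτ => by simpa [and_comm] using ex_facet (hg τ hτ).1⟩
  obtain ⟨F₀, hF₀, -⟩ := hC.1.2 τ₁ hne
  obtain ⟨F, hFS, hl⟩ := hF {F | F ∈ C ∧ Conn Δ F₀ F} ⟨F₀, hF₀, .refl⟩ (fun F h => hC.1.1 F h.1)
    fun F h G h' => (conn_symm h.2).trans h'.2
  obtain ⟨τ, hτ, hτ'⟩ : ∃ τ, g τ ≠ 0 ∧ ∀ G ∈ C, G ≠ F → ¬ τ ⊆ G := by
    by_contra hh
    push Not at hh
    have := hC.2 (y := C.erase F) ⟨fun G h => hC.1.1 G (mem_of_mem_erase h), fun τ hτ => by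
      obtain ⟨G, h1, h2, h3⟩ := hh τ hτ
      exact ⟨G, mem_erase.2 ⟨h2, h1⟩, h3⟩⟩ (erase_subset _ _)
    exact notMem_erase F C (this hFS.1)
  have hτF : τ ⊆ F := by
    obtain ⟨G, h1, h2⟩ := hC.1.2 τ hτ
    by_contra hh
    exact hτ' G h1 (fun e => hh (e ▸ h2)) h2
  have hk := (hg τ hτ).2
  have hFD := hD F (hC.1.1 F hFS.1)
  have := card_le_card hτF
  obtain ⟨v, hv, hv'⟩ : ∃ v ∈ τ, ∀ G ∈ C, v ∈ G → G = F := by
    have cn : ∀ v ∈ τ, ∀ G ∈ C, v ∈ G → G ∈ {F | F ∈ C ∧ Conn Δ F₀ F} := fun v hv G h1 h2 =>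
      ⟨h1, hFS.2.tail ⟨hC.1.1 F hFS.1, hC.1.1 G h1, v, mem_inter.2 ⟨hτF hv, h2⟩⟩⟩
    rcases hl with e | ⟨G, h1, h2, h3⟩
    · obtain ⟨v, hv⟩ : τ.Nonempty := card_pos.1 (by omega)
      exact ⟨v, hv, fun G h1 h2 => by simpa [e] using cn v hv G h1 h2⟩
    · obtain ⟨v, hv, hvG⟩ := not_subset.1 (hτ' G h1.1 h2)
      refine ⟨v, hv, fun G' h4 h5 => by_contra fun h6 => hvG ?_⟩
      exact (mem_inter.1 (h3 G' (cn v hv G' h4 h5) h6 (mem_inter.2 ⟨hτF hv, h5⟩))).2
  have hsub : ∀ ρ, g ρ ≠ 0 → v ∈ ρ → ρ ⊆ F := fun ρ h1 h2 => by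
    obtain ⟨G, h3, h4⟩ := hC.1.2 ρ h1
    exact hv' G h3 (h4 h2) ▸ h4
  obtain ⟨i, rfl⟩ : ∃ m, i = m + 1 := ⟨i - 1, by omega⟩
  obtain ⟨k, rfl⟩ : ∃ m, k = m + 1 := ⟨k - 1, by omega⟩
  have hce := card_erase_add_one (hτF hv)
  have := inj' (i := i) (k := k) (F.erase v) (fun ρ => g (insert v ρ)) (by omega) (by omega)
    (fun σ hσ hs => ?_) (τ.erase v) (erase_subset_erase _ hτF)
    (by have := card_erase_add_one hv; omega)
  · exact hτ (by simpa [insert_erase hv] using this)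
  have hvσ : v ∉ σ := fun h => notMem_erase v F (hσ h)
  rw [← h (insert v σ) (by rw [card_insert_of_notMem hvσ, hs])]
  refine sum_bij_ne_zero (fun ρ _ _ => insert v ρ) ?_ ?_ ?_ fun _ _ _ => rfl
  · intro ρ h1 _
    simpa using insert_subset_insert v (mem_filter.1 h1).2
  · intro a ha _ b hb _ e
    have ha' : v ∉ a := fun h => notMem_erase v F ((mem_powersetCard.1 (mem_filter.1 ha).1).1 h)
    have hb' : v ∉ b := fun h => notMem_erase v F ((mem_powersetCard.1 (mem_filter.1 hb).1).1 h)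
    rw [← erase_insert ha', ← erase_insert hb', e]
  · intro ρ h1 h2
    have h3 := (mem_filter.1 h1).2
    have h4 : v ∈ ρ := h3 (mem_insert_self _ _)
    refine ⟨ρ.erase v, mem_filter.2 ⟨mem_powersetCard.2 ⟨erase_subset_erase _ (hsub ρ h2 h4), ?_⟩,
      subset_erase.2 ⟨(subset_insert _ _).trans h3, hvσ⟩⟩, by rwa [insert_erase h4],
      insert_erase h4⟩
    have := card_erase_add_one h4
    have := (hg ρ h2).2
    omega

theorem result (K : Type) [Field K] [CharZero K] (n : ℕ) (Δ : Set (Finset (Fin n)))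
    (hΔ : IsComplex Δ) (hP : Pure Δ) (hF : Forest Δ) (i j : ℕ) :
    Set.InjOn (fun a => L K Δ ^ j * a) (A K Δ i) ∨
      Set.SurjOn (fun a => L K Δ ^ j * a) (A K Δ i) (A K Δ (i + j)) := by
  classical
  obtain ⟨D, hD⟩ := hP
  have hj : (j.factorial : K) ≠ 0 := Nat.cast_ne_zero.2 j.factorial_ne_zero
  by_cases h : i + (i + j) ≤ D
  · left
    rintro _ ⟨f, hf, rfl⟩ _ ⟨f', hf', rfl⟩ e
    simp only [L, ← map_pow, ← map_mul, Ideal.Quotient.eq, ← mul_sub, mem_I hΔ] at e ⊢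
    intro σ hσ
    by_cases hi : σ.card = i
    · obtain ⟨F, h1, h2⟩ := ex_facet hσ
      refine inj i (i + j) F (fun σ => coeff (ind σ) (f - f')) (by omega) (hD F h2 ▸ h)
        (fun τ h3 h4 => ?_) σ h1 hi
      have := e τ (hΔ F h2.1 τ h3)
      rw [coeff_Lpow _ i j τ h4] at this
      exact (mul_eq_zero.1 this).resolve_left hj
    · exact (IsHomogeneous.sub hf hf').coeff_eq_zero (by rwa [ind_deg])
  · right
    rintro _ ⟨y, hy, rfl⟩
    obtain ⟨c, hc⟩ := dual (T := {τ // τ ∈ Δ ∧ τ.card = i + j}) (S := Finset (Fin n))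
      (fun τ σ => if σ ∈ powersetCard i τ.1 then (1 : K) else 0) (fun g hg t => by
        have := down hF hD (i := i) (k := i + j) (by omega) (by omega)
          (fun τ => if h : τ ∈ Δ ∧ τ.card = i + j then g ⟨τ, h⟩ else 0)
          (fun τ hτ => by by_contra hh; simp [hh] at hτ) (fun σ hσ => by
            refine Eq.trans ?_ (hg σ)
            rw [sum_filter, ← Fintype.sum_subtype_add_sum_subtype
              (fun τ => τ ∈ Δ ∧ τ.card = i + j), sum_eq_zero (s := (univ : Finset {τ //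
                ¬ (τ ∈ Δ ∧ τ.card = i + j)})) fun τ _ => by simp [τ.2], add_zero]
            exact sum_congr rfl fun τ _ => by simp [τ.2, hσ]) t.1
        simpa [t.2] using this) fun τ => coeff (ind τ.1) y
    let f : MvPolynomial (Fin n) K :=
      ∑ σ with σ.card = i, monomial (ind σ) (c σ / j.factorial)
    have hf : ∀ σ : Finset (Fin n), σ.card = i → coeff (ind σ) f = c σ / j.factorial := by
      intro σ hσ
      rw [coeff_sum, sum_eq_single σ]
      · simp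
      · intro τ _ hτ
        rw [coeff_monomial, if_neg fun e => hτ ((ind_le e.le).antisymm (ind_le e.ge))]
      · simp [hσ]
    have hh : f.IsHomogeneous i := IsHomogeneous.sum _ _ _ fun σ hσ =>
      isHomogeneous_monomial _ (by rw [ind_deg, (mem_filter.1 hσ).2])
    refine ⟨_, ⟨f, hh, rfl⟩, ?_⟩
    simp only [L, ← map_pow, ← map_mul, Ideal.Quotient.eq, mem_I hΔ]
    intro τ hτ
    by_cases hk : τ.card = i + j
    · have := hc ⟨τ, hτ, hk⟩
      rw [coeff_sub, coeff_Lpow _ i j τ hk, ← this,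
        sum_congr rfl fun σ hσ => hf σ (mem_powersetCard.1 hσ).2, ← sum_div, mul_div_cancel₀ _ hj]
      simp only [ite_mul, one_mul, zero_mul, sum_ite_mem, univ_inter, sub_self]
    · have hL : (∑ i, X i : MvPolynomial (Fin n) K).IsHomogeneous 1 :=
        IsHomogeneous.sum _ _ _ fun v _ => isHomogeneous_X K v
      have h2 := (hL.pow j).mul hh
      rw [one_mul, add_comm] at h2
      exact (h2.sub hy).coeff_eq_zero (by rwa [ind_deg])

end Pool.Agent.Results.MP_cb4cd2_al.SLP
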